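import Pool.Agent.Lib.MP_fc2a59_co.Gm.Lines
import Pool.Agent.Lib.MP_fc2a59_co.Final

set_option autoImplicit false

/-!
The criterion: if for some set `U` of `n/2 + 1` vertices of a connected cubic graph the number of choices
of one edge at every vertex of `U` such that the other edges form a tree is not divisible by four, then
the vertex set has a partition into two sets inducing trees.
-/

namespace Pool.Agent.Gm

open Finset

/-! ### Trees with one crossing edge -/

section tree

variable {V : Type} (T : SimpleGraph V)

lemma reach_class {χ : V → Bool} {c : Bool} {a : V} (ha : χ a = c)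
    (h1 : ∀ u w, T.Adj u w → χ u = c → χ w ≠ c → u = a) :
    ∀ {u v : V} (_p : T.Walk u v), v = a → ∀ hu : χ u = c,
      (T.induce {v | χ v = c}).Reachable ⟨u, hu⟩ ⟨a, ha⟩ := by
  intro u v p
  induction p with
  | nil =>
    intro hv hu
    subst hv
    exact SimpleGraph.Reachable.refl _
  | @cons u w v h p ih =>
    intro hv hu
    by_cases hw : χ w = c
    · refine SimpleGraph.Reachable.trans ?_ (ih hv hw)
      exact SimpleGraph.Adj.reachable (G := T.induce {v | χ v = c}) (u := ⟨u, hu⟩) (v := ⟨w, hw⟩) h
    · have := h1 u w h hu hw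
      subst this
      exact SimpleGraph.Reachable.refl _

lemma isTree_class {χ : V → Bool} (hT : T.IsTree) {a b : V} (hab : χ a ≠ χ b)
    (h1 : ∀ u w, T.Adj u w → χ u ≠ χ w → s(u, w) = s(a, b)) (c : Bool) :
    (T.induce {v | χ v = c}).IsTree := by
  have key : ∀ a b : V, χ a = c → χ a ≠ χ b →
      (∀ u w, T.Adj u w → χ u ≠ χ w → s(u, w) = s(a, b)) → (T.induce {v | χ v = c}).IsTree := by
    intro a b ha hab h1
    refine ⟨?_, hT.isAcyclic.induce _⟩
    rw [SimpleGraph.connected_iff]
    refine ⟨?_, ⟨⟨a, ha⟩⟩⟩
    have hr : ∀ u, ∀ hu : χ u = c, (T.induce {v | χ v = c}).Reachable ⟨u, hu⟩ ⟨a, ha⟩ := by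
      intro u hu
      obtain ⟨p⟩ := hT.connected.preconnected u a
      refine reach_class T ha ?_ p rfl hu
      intro u w h2 h3 h4
      have h5 := h1 u w h2 (by rw [h3]; exact fun e => h4 e.symm)
      rw [Sym2.eq_iff] at h5
      rcases h5 with h5 | h5
      · exact h5.1
      · exfalso
        apply hab
        rw [ha, ← h5.1, h3]
    rintro ⟨u, hu⟩ ⟨v, hv⟩
    exact (hr u hu).trans (hr v hv).symm
  by_cases ha : χ a = c
  · exact key a b ha hab h1
  · have hb : χ b = c := by
      revert ha hab
      cases χ a <;> cases χ b <;> cases c <;> simp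
    exact key b a hb hab.symm (fun u w h2 h3 => by rw [h1 u w h2 h3, Sym2.eq_swap])

end tree

/-! ### The cographic space -/

variable {V : Type} (G : SimpleGraph V)

/-- The coboundary of a function on the vertices, as a function on the edges. -/
def cob : (V → ZMod 2) →ₗ[ZMod 2] (G.edgeSet → ZMod 2) where
  toFun f e := Sym2.lift ⟨fun u v => f u + f v, fun _ _ => add_comm _ _⟩ e.1
  map_add' f g := by
    funext e
    obtain ⟨e, he⟩ := e
    induction e using Sym2.ind with
    | h u v =>
      simp only [Sym2.lift_mk, Pi.add_apply]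
      ring
  map_smul' c f := by
    funext e
    obtain ⟨e, he⟩ := e
    induction e using Sym2.ind with
    | h u v =>
      simp only [Sym2.lift_mk, Pi.smul_apply, smul_eq_mul, RingHom.id_apply]
      ring

lemma cob_mk (f : V → ZMod 2) {u v : V} (h : G.Adj u v) : cob G f ⟨s(u, v), h⟩ = f u + f v := rfl

/-- The cographic space: functions on the edges modulo the cuts. -/
abbrev X : Type := (G.edgeSet → ZMod 2) ⧸ LinearMap.range (cob G)

open Classical in
/-- The indicator function of an edge. -/
noncomputable def sg (e : G.edgeSet) : G.edgeSet → ZMod 2 := fun g => if g = e then 1 else 0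

/-- The vector of an edge. -/
noncomputable def ve (e : G.edgeSet) : X G := Submodule.Quotient.mk (sg G e)

lemma const_of {G' : SimpleGraph V} (hG : G'.Preconnected) {f : V → ZMod 2}
    (h : ∀ u w, G'.Adj u w → f u = f w) (u v : V) : f u = f v := by
  obtain ⟨p⟩ := hG u v
  induction p with
  | nil => rfl
  | cons h1 _ ih => exact (h _ _ h1).trans ih

lemma eq_of_add_zero {a b : ZMod 2} (h : a + b = 0) : a = b := by
  revert a b
  decide

lemma const_of_cob (hG : G.Connected) {f : V → ZMod 2} (h : cob G f = 0) (u v : V) : f u = f v :=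
  const_of hG.preconnected (fun u w h1 => eq_of_add_zero (by rw [← cob_mk G f h1, h]; rfl)) u v

variable [Fintype V]

lemma finrank_X (hG : G.Connected) :
    Module.finrank (ZMod 2) (X G) + Fintype.card V = Nat.card G.edgeSet + 1 := by
  classical
  have : Fintype G.edgeSet := Fintype.ofFinite _
  have h1 := Submodule.finrank_quotient_add_finrank (LinearMap.range (cob G))
  have h2 := LinearMap.finrank_range_add_finrank_ker (cob G)
  rw [Module.finrank_fintype_fun_eq_card] at h1 h2
  have h3 : LinearMap.ker (cob G) = Submodule.span (ZMod 2) {fun _ => 1} := by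
    ext f
    rw [LinearMap.mem_ker, Submodule.mem_span_singleton]
    constructor
    · intro h
      obtain ⟨a⟩ := hG.nonempty
      refine ⟨f a, ?_⟩
      funext v
      simp only [Pi.smul_apply, smul_eq_mul, mul_one]
      exact const_of_cob G hG h a v
    · rintro ⟨c, rfl⟩
      funext e
      obtain ⟨e, he⟩ := e
      induction e using Sym2.ind with
      | h u v =>
        rw [cob_mk G _ he]
        exact add_self_zero _
  have h4 : Module.finrank (ZMod 2) (LinearMap.ker (cob G)) = 1 := by
    rw [h3]
    apply finrank_span_singleton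
    obtain ⟨a⟩ := hG.nonempty
    intro h
    exact one_ne_zero (congrFun h a)
  rw [Nat.card_eq_fintype_card]
  have h5 : Module.finrank (ZMod 2) (X G) = Module.finrank (ZMod 2)
    ((G.edgeSet → ZMod 2) ⧸ LinearMap.range (cob G)) := rfl
  omega

omit [Fintype V] in
lemma sum_ve {κ : Type} [Fintype κ] (e : κ → G.edgeSet) (c : κ → ZMod 2) :
    ∑ i, c i • ve G (e i) = Submodule.Quotient.mk (∑ i, c i • sg G (e i)) := by
  rw [← Submodule.mkQ_apply, map_sum]
  rfl

omit [Fintype V] in
lemma sum_ve_zero {κ : Type} [Fintype κ] (e : κ → G.edgeSet) (c : κ → ZMod 2) :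
    ∑ i, c i • ve G (e i) = 0 ↔ ∃ f, cob G f = ∑ i, c i • sg G (e i) := by
  rw [sum_ve, Submodule.Quotient.mk_eq_zero]
  rfl

omit [Fintype V] in
lemma sum_sg_inj {κ : Type} [Fintype κ] {e : κ → G.edgeSet} (he : Function.Injective e)
    (c : κ → ZMod 2) (j : κ) : (∑ i, c i • sg G (e i)) (e j) = c j := by
  classical
  rw [Finset.sum_apply, Finset.sum_eq_single j]
  · simp [sg]
  · intro i _ hi
    have : e j ≠ e i := fun h => hi (he h.symm)
    simp [sg, this]
  · intro h
    exact absurd (Finset.mem_univ _) h

omit [Fintype V] in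
lemma sum_sg_out {κ : Type} [Fintype κ] {e : κ → G.edgeSet}
    (c : κ → ZMod 2) {g : G.edgeSet} (hg : ∀ i, g ≠ e i) : (∑ i, c i • sg G (e i)) g = 0 := by
  classical
  rw [Finset.sum_apply]
  apply Finset.sum_eq_zero
  intro i _
  simp [sg, hg i]

lemma card_del {κ : Type} [Fintype κ] (e : κ → G.edgeSet) :
    Nat.card (G.deleteEdges (Set.range fun i => (e i).1)).edgeSet +
      (Set.range fun i => (e i).1).ncard = Nat.card G.edgeSet := by
  rw [SimpleGraph.edgeSet_deleteEdges, Nat.card_coe_set_eq, Nat.card_coe_set_eq]
  apply Set.ncard_sdiff_add_ncard_of_subset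
  · rintro _ ⟨i, rfl⟩
    exact (e i).2
  · exact Set.toFinite _

/-- A family of edges is a basis of the cographic space iff the other edges form a tree. -/
lemma li_iff (hG : G.Connected) {κ : Type} [Fintype κ] (e : κ → G.edgeSet)
    (hc : Fintype.card κ + Fintype.card V = Nat.card G.edgeSet + 1) :
    LinearIndependent (ZMod 2) (fun i => ve G (e i)) ↔
      (G.deleteEdges (Set.range fun i => (e i).1)).IsTree := by
  classical
  set S := Set.range fun i => (e i).1 with hS
  have hcard := card_del G e
  rw [← hS] at hcard
  constructor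
  · intro h
    have hinj : Function.Injective e := fun i j hij => h.injective (by
      show ve G (e i) = ve G (e j)
      rw [hij])
    have hSc : S.ncard = Fintype.card κ := by
      rw [hS, ← Nat.card_coe_set_eq, Nat.card_range_of_injective, Nat.card_eq_fintype_card]
      intro i j hij
      exact hinj (Subtype.ext hij)
    rw [SimpleGraph.isTree_iff_connected_and_card]
    refine ⟨?_, by rw [Nat.card_eq_fintype_card (α := V)]; omega⟩
    rw [SimpleGraph.connected_iff]
    refine ⟨?_, hG.nonempty⟩
    intro a b
    by_contra hab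
    set f : V → ZMod 2 := fun v => if (G.deleteEdges S).Reachable a v then 1 else 0 with hf
    have hfe : ∀ u w, (G.deleteEdges S).Adj u w → f u = f w := by
      intro u w huw
      have : (G.deleteEdges S).Reachable a u ↔ (G.deleteEdges S).Reachable a w :=
        ⟨fun h => h.trans huw.reachable, fun h => h.trans huw.symm.reachable⟩
      simp only [hf, this]
    have hcob : cob G f = ∑ i, (cob G f (e i)) • sg G (e i) := by
      funext g
      by_cases hg : ∃ i, g = e i
      · obtain ⟨i, rfl⟩ := hg
        rw [sum_sg_inj G hinj]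
      · push Not at hg
        rw [sum_sg_out G _ hg]
        obtain ⟨g, hg'⟩ := g
        induction g using Sym2.ind with
        | h u w =>
          rw [cob_mk G f hg', hfe u w]
          · exact add_self_zero _
          · rw [SimpleGraph.deleteEdges_adj]
            refine ⟨hg', ?_⟩
            rintro ⟨i, hi⟩
            exact hg i (Subtype.ext hi.symm)
    have h0 := Fintype.linearIndependent_iff.1 h (fun i => cob G f (e i))
      ((sum_ve_zero G e _).2 ⟨f, hcob⟩)
    have h1 : cob G f = 0 := by
      rw [hcob]
      apply Finset.sum_eq_zero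
      intro i _
      rw [h0 i, zero_smul]
    have h2 := const_of_cob G hG h1 a b
    simp only [hf] at h2
    rw [if_pos (SimpleGraph.Reachable.refl _), if_neg hab] at h2
    exact one_ne_zero h2
  · intro h
    have h1 := (SimpleGraph.isTree_iff_connected_and_card.1 h).2
    rw [Nat.card_eq_fintype_card (α := V)] at h1
    have hSc : S.ncard = Fintype.card κ := by omega
    have hinj : Function.Injective e := by
      have h2 : (univ.image fun i => (e i).1).card = (univ : Finset κ).card := by
        rw [Finset.card_univ, ← hSc, hS, ← Set.ncard_coe_finset]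
        congr 1
        ext x
        simp
      have h3 := Finset.card_image_iff.1 h2
      intro i j hij
      exact h3 (Finset.mem_coe.2 (Finset.mem_univ i)) (Finset.mem_coe.2 (Finset.mem_univ j))
        (congrArg Subtype.val hij)
    rw [Fintype.linearIndependent_iff]
    intro c hc0
    obtain ⟨f, hf⟩ := (sum_ve_zero G e c).1 hc0
    have hconst := const_of (f := f) h.connected.preconnected (by
      intro u w huw
      rw [SimpleGraph.deleteEdges_adj] at huw
      apply eq_of_add_zero
      rw [← cob_mk G f huw.1, hf, sum_sg_out]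
      intro i hi
      exact huw.2 ⟨i, (congrArg Subtype.val hi).symm⟩)
    have hz : cob G f = 0 := by
      funext g
      obtain ⟨g, hg'⟩ := g
      induction g using Sym2.ind with
      | h u w =>
        rw [cob_mk G f hg', hconst u w]
        exact add_self_zero _
    intro j
    rw [← sum_sg_inj G hinj c j, ← hf, hz]
    rfl

/-! ### The partition given by a spanning circuit -/

/-- the colour given by a function with values in `ZMod 2` -/
def chi {V : Type} (f : V → ZMod 2) (v : V) : Bool := decide (f v = 1)

omit [Fintype V] in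
lemma chi_ne (f : V → ZMod 2) (u v : V) : chi f u ≠ chi f v ↔ f u + f v = 1 := by
  unfold chi
  generalize f u = a
  generalize f v = b
  revert a b
  decide

lemma partition_of_circuit (hG : G.Connected) {κ : Type} [Fintype κ] (e : κ → G.edgeSet)
    (e1 e2 : G.edgeSet)
    (hc : Fintype.card (Option κ) + Fintype.card V = Nat.card G.edgeSet + 1)
    (hli : LinearIndependent (ZMod 2) (fun o : Option κ => ve G (o.elim e1 e)))
    (h12 : e2 ≠ e1) (h2 : ∀ i, e2 ≠ e i)
    (hsum : ∑ i, ve G (e i) + ve G e1 + ve G e2 = 0) :
    ∃ χ : V → Bool, ∀ b, (G.induce {v | χ v = b}).IsTree := by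
  classical
  have hT := (li_iff G hG (fun o : Option κ => o.elim e1 e) hc).1 hli
  set S := Set.range fun o : Option κ => ((o.elim e1 e : G.edgeSet)).1 with hS
  have hinj : Function.Injective (fun o : Option κ => (o.elim e1 e : G.edgeSet)) :=
    fun i j hij => hli.injective (by
      show ve G (i.elim e1 e) = ve G (j.elim e1 e)
      exact congrArg (ve G) hij)
  have hne : ∀ i, e i ≠ e1 := fun i h => by
    have := @hinj (some i) none h
    simp at this
  have hinj' : ∀ i j, e i = e j → i = j := fun i j h => by
    have := @hinj (some i) (some j) h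
    simpa using this
  obtain ⟨f, hf⟩ : ∃ f, cob G f = ∑ i, sg G (e i) + sg G e1 + sg G e2 := by
    have h1 : (Submodule.Quotient.mk (∑ i, sg G (e i) + sg G e1 + sg G e2) : X G) = 0 := by
      rw [Submodule.Quotient.mk_add, Submodule.Quotient.mk_add, ← hsum]
      congr 2
      rw [← Submodule.mkQ_apply, map_sum]
      rfl
    rw [Submodule.Quotient.mk_eq_zero] at h1
    exact h1
  have hval : ∀ g : G.edgeSet, cob G f g = (∑ i, if g = e i then (1 : ZMod 2) else 0) +
      (if g = e1 then 1 else 0) + (if g = e2 then 1 else 0) := by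
    intro g
    rw [hf, Pi.add_apply, Pi.add_apply, Finset.sum_apply]
    rfl
  have hv2 : cob G f e2 = 1 := by
    rw [hval, if_neg h12, if_pos rfl, Finset.sum_eq_zero (fun i _ => if_neg (h2 i))]
    simp
  have hv1 : cob G f e1 = 1 := by
    rw [hval, if_pos rfl, if_neg h12.symm, Finset.sum_eq_zero (fun i _ => if_neg (hne i).symm)]
    simp
  have hv0 : ∀ i, cob G f (e i) = 1 := by
    intro i
    rw [hval, if_neg (hne i), if_neg (h2 i).symm, Finset.sum_eq_single i]
    · simp
    · intro j _ hj
      exact if_neg (fun h => hj (hinj' _ _ h).symm)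
    · intro h
      exact absurd (Finset.mem_univ _) h
  refine ⟨chi f, fun c => ?_⟩
  have hGG : G.induce {v | chi f v = c} = (G.deleteEdges S).induce {v | chi f v = c} := by
    ext ⟨u, hu⟩ ⟨w, hw⟩
    rw [SimpleGraph.comap_adj, SimpleGraph.comap_adj, SimpleGraph.deleteEdges_adj]
    constructor
    · intro h
      refine ⟨h, ?_⟩
      rintro ⟨o, ho⟩
      have h5 : cob G f ⟨s(u, w), h⟩ = 1 := by
        have h6 : (⟨s(u, w), h⟩ : G.edgeSet) = o.elim e1 e := Subtype.ext ho.symm
        rw [h6]
        cases o with
        | none => exact hv1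
        | some i => exact hv0 i
      rw [cob_mk, ← chi_ne] at h5
      exact h5 (hu.trans hw.symm)
    · exact fun h => h.1
  rw [hGG]
  obtain ⟨g, hg⟩ := e2
  induction g using Sym2.ind with
  | h a b =>
    refine isTree_class _ hT (a := a) (b := b) ?_ ?_ c
    · rw [chi_ne, ← cob_mk G f hg]
      exact hv2
    · intro u w huw hχ
      rw [SimpleGraph.deleteEdges_adj] at huw
      rw [chi_ne, ← cob_mk G f huw.1, hval] at hχ
      have n1 : (⟨s(u, w), huw.1⟩ : G.edgeSet) ≠ e1 := fun h =>
        huw.2 ⟨none, (congrArg Subtype.val h).symm⟩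
      have n2 : ∀ i, (⟨s(u, w), huw.1⟩ : G.edgeSet) ≠ e i := fun i h =>
        huw.2 ⟨some i, (congrArg Subtype.val h).symm⟩
      rw [if_neg n1, Finset.sum_eq_zero (fun i _ => if_neg (n2 i)), zero_add, zero_add] at hχ
      by_contra hn
      rw [if_neg (fun h => hn (congrArg Subtype.val h))] at hχ
      exact zero_ne_one hχ

/-! ### Cubic graphs -/

lemma exists_nb [DecidableRel G.Adj] (h3 : ∀ v, G.degree v = 3) :
    ∃ nb : V → Fin 3 → V, (∀ w, Function.Injective (nb w)) ∧ ∀ w u, G.Adj w u ↔ ∃ k, nb w k = u := by
  have h : ∀ w, ∃ f : Fin 3 → V, Function.Injective f ∧ ∀ u, G.Adj w u ↔ ∃ k, f k = u := by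
    intro w
    have h1 : Fintype.card (G.neighborFinset w) = 3 := by
      rw [Fintype.card_coe, SimpleGraph.card_neighborFinset_eq_degree, h3]
    let φ := (Fintype.equivFinOfCardEq h1).symm
    refine ⟨fun k => (φ k).1, fun i j hij => φ.injective (Subtype.ext hij), fun u => ?_⟩
    constructor
    · intro hu
      refine ⟨φ.symm ⟨u, by rwa [SimpleGraph.mem_neighborFinset]⟩, ?_⟩
      simp
    · rintro ⟨k, rfl⟩
      have := (φ k).2
      rwa [SimpleGraph.mem_neighborFinset] at this
  choose f hf using h
  exact ⟨f, fun w => (hf w).1, fun w => (hf w).2⟩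

/-- the edge at `w` with number `k` -/
def eg {nb : V → Fin 3 → V} (hn : ∀ w u, G.Adj w u ↔ ∃ k, nb w k = u) (w : V) (k : Fin 3) :
    G.edgeSet := ⟨s(w, nb w k), (hn w _).2 ⟨k, rfl⟩⟩

omit [Fintype V] in
lemma star_zero {nb : V → Fin 3 → V} (hn : ∀ w u, G.Adj w u ↔ ∃ k, nb w k = u)
    (hi : ∀ w, Function.Injective (nb w)) (w : V) :
    ve G (eg G hn w 0) + ve G (eg G hn w 1) + ve G (eg G hn w 2) = 0 := by
  classical
  have h1 : ∑ k, (1 : ZMod 2) • ve G (eg G hn w k) = 0 := by
    rw [sum_ve_zero]
    refine ⟨fun v => if v = w then 1 else 0, ?_⟩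
    funext g
    obtain ⟨g, hg⟩ := g
    induction g using Sym2.ind with
    | h u v =>
      rw [cob_mk G _ hg, Finset.sum_apply]
      simp only [one_smul, sg]
      have key : ∀ v (hv : G.Adj w v), (∑ k, if (⟨s(w, v), hv⟩ : G.edgeSet) = eg G hn w k then
          (1 : ZMod 2) else 0) = 1 := by
        intro v hv
        obtain ⟨k, rfl⟩ := (hn w v).1 hv
        rw [Finset.sum_eq_single k]
        · exact if_pos rfl
        · intro k' _ hk
          rw [if_neg]
          intro h
          have h2 : s(w, nb w k) = s(w, nb w k') := congrArg Subtype.val h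
          rw [Sym2.eq_iff] at h2
          rcases h2 with h2 | h2
          · exact hk (hi w h2.2).symm
          · exact ((hn w _).2 ⟨k, rfl⟩ : G.Adj w (nb w k)).ne h2.2.symm
        · intro h
          exact absurd (Finset.mem_univ _) h
      by_cases hu : u = w
      · subst hu
        rw [if_pos rfl, if_neg hg.ne.symm, key v hg, add_zero]
      · by_cases hv : v = w
        · subst hv
          rw [if_pos rfl, if_neg hu, zero_add]
          have e : (⟨s(u, v), hg⟩ : G.edgeSet) = ⟨s(v, u), hg.symm⟩ := Subtype.ext Sym2.eq_swap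
          rw [e]
          exact (key u hg.symm).symm
        · rw [if_neg hu, if_neg hv, add_zero]
          symm
          apply Finset.sum_eq_zero
          intro k _
          rw [if_neg]
          intro h
          have h2 : s(u, v) = s(w, nb w k) := congrArg Subtype.val h
          rw [Sym2.eq_iff] at h2
          rcases h2 with h2 | h2
          · exact hu h2.1
          · exact hv h2.2
  rw [Fin.sum_univ_three] at h1
  simpa only [one_smul] using h1

end Pool.Agent.Gm
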