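import Mathlib

set_option autoImplicit false

/-!
The lines theorem: `r` lines in the space `F_2^r`.

A line is a map `l : Fin 3 → V` with `l 0 + l 1 + l 2 = 0`.  For lines `l w`, `w : ι`, and a further line
`l0`, where `|ι| + 1 = dim V`, the number of transversals `x : ι → Fin 3` which are linearly independent
and whose span does not contain the line `l0` is congruent modulo 2 to the number of those among them for
which the sum of all the vectors of the transversal is in the line `l0`.
-/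

namespace Pool.Agent.Gm

open Finset

variable {V : Type*} [AddCommGroup V] [Module (ZMod 2) V]

/-- A submodule which contains the sum of any two vectors outside it. -/
def Hyp (H : Submodule (ZMod 2) V) : Prop := ∀ a b : V, a ∉ H → b ∉ H → a + b ∈ H

lemma add_self_zero (a : V) : a + a = 0 := by
  have : (2 : ZMod 2) • a = a + a := two_smul _ a
  rw [← this, show (2 : ZMod 2) = 0 from rfl, zero_smul]

lemma hyp_of_finrank [FiniteDimensional (ZMod 2) V] {H : Submodule (ZMod 2) V}
    (h : Module.finrank (ZMod 2) H + 1 = Module.finrank (ZMod 2) V) : Hyp H := by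
  intro a b ha hb
  have h1 : Module.finrank (ZMod 2) (V ⧸ H) = 1 := by
    have := Submodule.finrank_quotient_add_finrank H
    omega
  have ha' : (Submodule.Quotient.mk a : V ⧸ H) ≠ 0 := by
    rwa [Ne, Submodule.Quotient.mk_eq_zero]
  have hb' : (Submodule.Quotient.mk b : V ⧸ H) ≠ 0 := by
    rwa [Ne, Submodule.Quotient.mk_eq_zero]
  obtain ⟨c, hc⟩ := (finrank_eq_one_iff_of_nonzero' _ ha').1 h1 (Submodule.Quotient.mk b)
  have hc1 : c = 1 := by
    have hc0 : c ≠ 0 := by
      rintro rfl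
      rw [zero_smul] at hc
      exact hb' hc.symm
    have key : ∀ c : ZMod 2, c ≠ 0 → c = 1 := by decide
    exact key c hc0
  rw [hc1, one_smul] at hc
  rw [← Submodule.Quotient.mk_eq_zero, Submodule.Quotient.mk_add, ← hc]
  exact add_self_zero _

lemma line_mem {H : Submodule (ZMod 2) V} (hH : Hyp H) {l : Fin 3 → V} (hl : l 0 + l 1 + l 2 = 0) :
    l 2 ∈ H ↔ (l 0 ∈ H ↔ l 1 ∈ H) := by
  have e : l 2 = l 0 + l 1 := by
    have h1 : l 2 = (l 0 + l 1 + l 2) - (l 0 + l 1) := by abel
    rw [h1, hl, zero_sub]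
    exact neg_eq_of_add_eq_zero_left (add_self_zero _)
  rw [e]
  constructor
  · intro h
    exact ⟨fun h0 => (Submodule.add_mem_iff_right H h0).1 h,
      fun h1 => (Submodule.add_mem_iff_left H h1).1 h⟩
  · intro h
    by_cases h0 : l 0 ∈ H
    · exact H.add_mem h0 (h.1 h0)
    · exact hH _ _ h0 (fun h1 => h0 (h.2 h1))

open Classical in
lemma line_card {H : Submodule (ZMod 2) V} (hH : Hyp H) {l : Fin 3 → V}
    (hl : l 0 + l 1 + l 2 = 0) (hn : ∃ j, l j ∉ H) :
    (univ.filter (fun k => l k ∉ H)).card = 2 := by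
  have h := line_mem hH hl
  rw [Finset.card_filter, Fin.sum_univ_three]
  by_cases h0 : l 0 ∈ H <;> by_cases h1 : l 1 ∈ H <;> simp [h0, h1] at h ⊢ <;> simp [h]
  obtain ⟨j, hj⟩ := hn
  fin_cases j <;> simp_all

open Classical in
lemma line_sum {H : Submodule (ZMod 2) V} (hH : Hyp H) {l : Fin 3 → V}
    (hl : l 0 + l 1 + l 2 = 0) :
    ∑ k, (if l k ∉ H then (1 : ZMod 2) else 0) = 0 := by
  have h := line_mem hH hl
  rw [Fin.sum_univ_three]
  by_cases h0 : l 0 ∈ H <;> by_cases h1 : l 1 ∈ H <;> simp [h0, h1] at h ⊢ <;> simp [h] <;> decide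

variable {ι : Type*} [Fintype ι]

/-- The transversal `x` together with the element `l0 j`. -/
def fam (l : ι → Fin 3 → V) (l0 : Fin 3 → V) (x : ι → Fin 3) (j : Fin 3) : Option ι → V :=
  fun o => o.elim (l0 j) (fun w => l w (x w))

/-- The span of the transversal. -/
def Sp (l : ι → Fin 3 → V) (x : ι → Fin 3) : Submodule (ZMod 2) V :=
  Submodule.span (ZMod 2) (Set.range fun w => l w (x w))

/-- `x` is independent and its span does not contain the line `l0`. -/
def Adm (l : ι → Fin 3 → V) (l0 : Fin 3 → V) (x : ι → Fin 3) : Prop :=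
  LinearIndependent (ZMod 2) (fun w => l w (x w)) ∧ ∃ j, l0 j ∉ Sp l x

omit [Fintype ι] in
lemma li_fam (l : ι → Fin 3 → V) (l0 : Fin 3 → V) (x : ι → Fin 3) (j : Fin 3) :
    LinearIndependent (ZMod 2) (fam l l0 x j) ↔
      LinearIndependent (ZMod 2) (fun w => l w (x w)) ∧ l0 j ∉ Sp l x := by
  have e : fam l l0 x j = fun o : Option ι => Option.casesOn' o (l0 j) (fun w => l w (x w)) := by
    funext o
    cases o <;> rfl
  rw [e, linearIndependent_option']
  rfl

variable [FiniteDimensional (ZMod 2) V]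

lemma hyp_Sp {l : ι → Fin 3 → V} {x : ι → Fin 3}
    (hd : Module.finrank (ZMod 2) V = Fintype.card ι + 1)
    (h : LinearIndependent (ZMod 2) (fun w => l w (x w))) : Hyp (Sp l x) := by
  apply hyp_of_finrank
  unfold Sp
  rw [finrank_span_eq_card h, hd]

/-- the number of bases is twice the number of admissible transversals -/
lemma card_fam (l : ι → Fin 3 → V) {l0 : Fin 3 → V} (h0 : l0 0 + l0 1 + l0 2 = 0)
    (hd : Module.finrank (ZMod 2) V = Fintype.card ι + 1) :
    Nat.card {q : (ι → Fin 3) × Fin 3 // LinearIndependent (ZMod 2) (fam l l0 q.1 q.2)}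
      = 2 * Nat.card {x : ι → Fin 3 // Adm l l0 x} := by
  classical
  rw [Nat.card_eq_fintype_card, Nat.card_eq_fintype_card, Fintype.card_subtype, Fintype.card_subtype,
    Finset.card_filter, Finset.card_filter, Fintype.sum_prod_type, Finset.mul_sum]
  apply Finset.sum_congr rfl
  intro x _
  dsimp only
  simp_rw [li_fam]
  by_cases h : LinearIndependent (ZMod 2) (fun w => l w (x w))
  · by_cases h1 : ∃ j, l0 j ∉ Sp l x
    · have h2 : Adm l l0 x := ⟨h, h1⟩
      rw [if_pos h2, mul_one]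
      refine Eq.trans ?_ (line_card (hyp_Sp hd h) h0 h1)
      rw [Finset.card_filter]
      simp only [h, true_and]
    · have h2 : ¬ Adm l l0 x := fun h3 => h1 h3.2
      rw [if_neg h2, mul_zero]
      apply Finset.sum_eq_zero
      intro j _
      rw [if_neg]
      rintro ⟨_, h3⟩
      exact h1 ⟨j, h3⟩
  · have h2 : ¬ Adm l l0 x := fun h3 => h h3.1
    simp only [h, h2, false_and, if_false, Finset.sum_const_zero, mul_zero]

/-- `J` are the coordinates of the element `l0 j` of the span. -/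
def Pj (l : ι → Fin 3 → V) (l0 : Fin 3 → V) (x : ι → Fin 3) (J : Finset ι) (j : Fin 3) : Prop :=
  Adm l l0 x ∧ ∑ w ∈ J, l w (x w) = l0 j

omit [Fintype ι] [FiniteDimensional (ZMod 2) V] in
lemma mem_Sp_sum (l : ι → Fin 3 → V) (x : ι → Fin 3) (J : Finset ι) :
    ∑ w ∈ J, l w (x w) ∈ Sp l x :=
  Submodule.sum_mem _ (fun w _ => Submodule.subset_span ⟨w, rfl⟩)

omit [FiniteDimensional (ZMod 2) V] in
lemma exists_sum {l : ι → Fin 3 → V} {x : ι → Fin 3} {y : V} (hy : y ∈ Sp l x) :
    ∃ J : Finset ι, ∑ w ∈ J, l w (x w) = y := by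
  classical
  obtain ⟨c, hc⟩ := (Submodule.mem_span_range_iff_exists_fun _).1 hy
  refine ⟨univ.filter (fun w => c w ≠ 0), ?_⟩
  rw [← hc, Finset.sum_filter]
  apply Finset.sum_congr rfl
  intro w _
  have key : ∀ c : ZMod 2, c ≠ 0 → c = 1 := by decide
  by_cases h : c w = 0
  · simp [h]
  · rw [if_pos h, key _ h, one_smul]

omit [FiniteDimensional (ZMod 2) V] in
lemma sum_inj {l : ι → Fin 3 → V} {x : ι → Fin 3}
    (h : LinearIndependent (ZMod 2) (fun w => l w (x w))) {J J' : Finset ι}
    (he : ∑ w ∈ J, l w (x w) = ∑ w ∈ J', l w (x w)) : J = J' := by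
  classical
  rw [Fintype.linearIndependent_iff] at h
  have h1 := h (fun w => (if w ∈ J then (1 : ZMod 2) else 0) + (if w ∈ J' then (1 : ZMod 2) else 0))
    (by
      simp only [add_smul, ite_smul, one_smul, zero_smul, Finset.sum_add_distrib, Finset.sum_ite_mem,
        Finset.univ_inter]
      rw [he]
      exact add_self_zero _)
  ext w
  have h2 := h1 w
  by_cases a : w ∈ J <;> by_cases b : w ∈ J' <;> simp [a, b] at h2 ⊢

lemma unique_j {l : ι → Fin 3 → V} {l0 : Fin 3 → V} (h0 : l0 0 + l0 1 + l0 2 = 0)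
    (hd : Module.finrank (ZMod 2) V = Fintype.card ι + 1) {x : ι → Fin 3} (hx : Adm l l0 x)
    {j j' : Fin 3} (hj : l0 j ∈ Sp l x) (hj' : l0 j' ∈ Sp l x) : j = j' := by
  have h := line_mem (hyp_Sp hd hx.1) h0
  obtain ⟨k, hk⟩ := hx.2
  fin_cases j <;> fin_cases j' <;> fin_cases k <;> simp_all

lemma exists_j {l : ι → Fin 3 → V} {l0 : Fin 3 → V} (h0 : l0 0 + l0 1 + l0 2 = 0)
    (hd : Module.finrank (ZMod 2) V = Fintype.card ι + 1) {x : ι → Fin 3} (hx : Adm l l0 x) :
    ∃ j, l0 j ∈ Sp l x := by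
  have h := line_mem (hyp_Sp hd hx.1) h0
  by_cases h1 : l0 0 ∈ Sp l x
  · exact ⟨0, h1⟩
  by_cases h2 : l0 1 ∈ Sp l x
  · exact ⟨1, h2⟩
  exact ⟨2, h.2 (by simp [h1, h2])⟩

open Classical in
lemma sum_Pj {l : ι → Fin 3 → V} {l0 : Fin 3 → V} (h0 : l0 0 + l0 1 + l0 2 = 0)
    (hd : Module.finrank (ZMod 2) V = Fintype.card ι + 1) (x : ι → Fin 3) :
    ∑ q : Finset ι × Fin 3, (if Pj l l0 x q.1 q.2 then (1 : ZMod 2) else 0)
      = if Adm l l0 x then 1 else 0 := by
  by_cases hx : Adm l l0 x
  · rw [if_pos hx]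
    obtain ⟨j, hj⟩ := exists_j h0 hd hx
    obtain ⟨J, hJ⟩ := exists_sum hj
    rw [Finset.sum_eq_single (J, j)]
    · exact if_pos ⟨hx, hJ⟩
    · rintro ⟨J', j'⟩ _ hne
      rw [if_neg]
      rintro ⟨_, h1⟩
      dsimp only at h1
      apply hne
      have e1 : j' = j := unique_j h0 hd hx (h1 ▸ mem_Sp_sum l x J') hj
      subst e1
      rw [sum_inj hx.1 (h1.trans hJ.symm)]
    · intro h
      exact absurd (Finset.mem_univ _) h
  · rw [if_neg hx]
    apply Finset.sum_eq_zero
    intro q _
    exact if_neg (fun h => hx h.1)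

omit [Fintype ι] [FiniteDimensional (ZMod 2) V] in
lemma Pj_iff {l : ι → Fin 3 → V} {l0 : Fin 3 → V} (h0 : l0 0 + l0 1 + l0 2 = 0)
    (x : ι → Fin 3) (J : Finset ι) (j : Fin 3) :
    Pj l l0 x J j ↔ ∑ w ∈ J, l w (x w) = l0 j ∧
      LinearIndependent (ZMod 2) (fam l l0 x (j + 1)) := by
  rw [li_fam]
  constructor
  · rintro ⟨⟨h1, k, hk⟩, h2⟩
    refine ⟨h2, h1, fun h3 => hk ?_⟩
    have h4 : l0 j ∈ Sp l x := h2 ▸ mem_Sp_sum l x J
    have hs : ∀ a b c : V, a + b + c = 0 → a ∈ Sp l x → b ∈ Sp l x → c ∈ Sp l x := by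
      intro a b c e ha hb
      have : c = - (a + b) := by
        rw [eq_neg_iff_add_eq_zero, add_comm]
        exact e
      rw [this]
      exact Submodule.neg_mem _ (Submodule.add_mem _ ha hb)
    fin_cases j
    · have h5 := hs _ _ _ h0 h4 h3
      fin_cases k
      · exact h4
      · exact h3
      · exact h5
    · have h5 := hs (l0 1) (l0 2) (l0 0) (by rw [← h0]; abel) h4 h3
      fin_cases k
      · exact h5
      · exact h4
      · exact h3
    · have h5 := hs (l0 2) (l0 0) (l0 1) (by rw [← h0]; abel) h4 h3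
      fin_cases k
      · exact h3
      · exact h5
      · exact h4
  · rintro ⟨h1, h2, h3⟩
    exact ⟨⟨h2, _, h3⟩, h1⟩

open Classical in
/-- the flip of one coordinate -/
lemma sum_flip {l : ι → Fin 3 → V} (hl : ∀ w, l w 0 + l w 1 + l w 2 = 0) {l0 : Fin 3 → V}
    (h0 : l0 0 + l0 1 + l0 2 = 0) (hd : Module.finrank (ZMod 2) V = Fintype.card ι + 1)
    {J : Finset ι} {w : ι} (hw : w ∉ J) (j : Fin 3) (x : ι → Fin 3) :
    ∑ k, (if Pj l l0 (Function.update x w k) J j then (1 : ZMod 2) else 0) = 0 := by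
  set s : Set (Option ι) := {some w}ᶜ with hs
  set K := Submodule.span (ZMod 2) (fam l l0 x (j + 1) '' s) with hK
  have hsum : ∀ k, ∑ v ∈ J, l v (Function.update x w k v) = ∑ v ∈ J, l v (x v) := by
    intro k
    apply Finset.sum_congr rfl
    intro v hv
    have hne : v ≠ w := by
      rintro rfl
      exact hw hv
    rw [Function.update_of_ne hne]
  have hfam : ∀ k, LinearIndependent (ZMod 2) (fam l l0 (Function.update x w k) (j + 1)) ↔
      LinearIndepOn (ZMod 2) (fam l l0 x (j + 1)) s ∧ l w k ∉ K := by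
    intro k
    have heq : Set.EqOn (fam l l0 (Function.update x w k) (j + 1)) (fam l l0 x (j + 1)) s := by
      rintro o ho
      cases o with
      | none => rfl
      | some v =>
        have hv : v ≠ w := fun e => ho (by rw [e]; rfl)
        simp only [fam, Option.elim]
        rw [Function.update_of_ne hv]
    have hu : (Set.univ : Set (Option ι)) = insert (some w) s := by
      rw [hs, Set.insert_eq, Set.union_compl_self]
    rw [← linearIndepOn_univ_iff, hu, linearIndepOn_insert (by simp [hs]), linearIndepOn_congr heq,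
      Set.image_congr heq]
    have e1 : fam l l0 (Function.update x w k) (j + 1) (some w) = l w k := by
      show l w (Function.update x w k w) = l w k
      rw [Function.update_self]
    rw [e1]
  by_cases h1 : ∑ v ∈ J, l v (x v) = l0 j ∧ LinearIndepOn (ZMod 2) (fam l l0 x (j + 1)) s
  · have hKh : Hyp K := by
      apply hyp_of_finrank
      have e1 := finrank_span_eq_card h1.2.linearIndependent
      have e2 : Set.range (fun x_1 : s => fam l l0 x (j + 1) x_1) = fam l l0 x (j + 1) '' s := by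
        rw [Set.image_eq_range]
      rw [e2] at e1
      rw [hK, e1, hd]
      have e3 : Fintype.card s = Fintype.card ι := by
        rw [Fintype.card_of_subtype (univ.erase (some w)) (by simp [hs]),
          Finset.card_erase_of_mem (Finset.mem_univ _), Finset.card_univ, Fintype.card_option]
        rfl
      rw [e3]
    refine Eq.trans (Finset.sum_congr rfl fun k _ => ?_) (line_sum hKh (hl w))
    congr 1
    rw [Pj_iff h0, hsum, hfam, eq_iff_iff]
    tauto
  · apply Finset.sum_eq_zero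
    intro k _
    rw [if_neg]
    rw [Pj_iff h0, hsum, hfam]
    tauto

open Classical in
lemma sum_Pj_zero {l : ι → Fin 3 → V} (hl : ∀ w, l w 0 + l w 1 + l w 2 = 0) {l0 : Fin 3 → V}
    (h0 : l0 0 + l0 1 + l0 2 = 0) (hd : Module.finrank (ZMod 2) V = Fintype.card ι + 1)
    {J : Finset ι} (hJ : J ≠ univ) (j : Fin 3) :
    ∑ x, (if Pj l l0 x J j then (1 : ZMod 2) else 0) = 0 := by
  obtain ⟨w, hw⟩ : ∃ w, w ∉ J := by
    by_contra h
    push Not at h
    exact hJ (Finset.eq_univ_iff_forall.2 h)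
  let e : ((ι → Fin 3) × Fin 3) ≃ ((ι → Fin 3) × Fin 3) :=
    { toFun := fun q => (Function.update q.1 w q.2, q.1 w)
      invFun := fun q => (Function.update q.1 w q.2, q.1 w)
      left_inv := by
        rintro ⟨x, k⟩
        simp
      right_inv := by
        rintro ⟨x, k⟩
        simp }
  have h1 : ∑ q : (ι → Fin 3) × Fin 3, (if Pj l l0 (e q).1 J j then (1 : ZMod 2) else 0)
      = ∑ q : (ι → Fin 3) × Fin 3, (if Pj l l0 q.1 J j then (1 : ZMod 2) else 0) :=
    Equiv.sum_comp e (fun q => if Pj l l0 q.1 J j then (1 : ZMod 2) else 0)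
  have h2 : ∑ q : (ι → Fin 3) × Fin 3, (if Pj l l0 (e q).1 J j then (1 : ZMod 2) else 0) = 0 := by
    rw [Fintype.sum_prod_type]
    apply Finset.sum_eq_zero
    intro x _
    exact sum_flip hl h0 hd hw j x
  rw [h2, Fintype.sum_prod_type] at h1
  have h5 : ∑ x : ι → Fin 3, ∑ _k : Fin 3, (if Pj l l0 x J j then (1 : ZMod 2) else 0)
      = ∑ x, (if Pj l l0 x J j then (1 : ZMod 2) else 0) := by
    apply Finset.sum_congr rfl
    intro x _
    rw [Fin.sum_univ_three]
    split_ifs <;> decide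
  exact h5.symm.trans h1.symm

/-- The lines theorem. -/
theorem lines {l : ι → Fin 3 → V} (hl : ∀ w, l w 0 + l w 1 + l w 2 = 0) {l0 : Fin 3 → V}
    (h0 : l0 0 + l0 1 + l0 2 = 0) (hd : Module.finrank (ZMod 2) V = Fintype.card ι + 1) :
    (Nat.card {x : ι → Fin 3 // Adm l l0 x} : ZMod 2)
      = (Nat.card {x : ι → Fin 3 // Adm l l0 x ∧ ∃ j, ∑ w, l w (x w) = l0 j} : ZMod 2) := by
  classical
  rw [Nat.card_eq_fintype_card, Nat.card_eq_fintype_card, Fintype.card_subtype, Fintype.card_subtype,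
    Finset.natCast_card_filter, Finset.natCast_card_filter]
  calc ∑ x, (if Adm l l0 x then (1 : ZMod 2) else 0)
      = ∑ x, ∑ q : Finset ι × Fin 3, (if Pj l l0 x q.1 q.2 then (1 : ZMod 2) else 0) := by
        apply Finset.sum_congr rfl
        intro x _
        rw [sum_Pj h0 hd]
    _ = ∑ q : Finset ι × Fin 3, ∑ x, (if Pj l l0 x q.1 q.2 then (1 : ZMod 2) else 0) :=
        Finset.sum_comm
    _ = ∑ J : Finset ι, ∑ j, ∑ x, (if Pj l l0 x J j then (1 : ZMod 2) else 0) := by
        rw [Fintype.sum_prod_type]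
    _ = ∑ j, ∑ x, (if Pj l l0 x univ j then (1 : ZMod 2) else 0) := by
        rw [Finset.sum_eq_single univ]
        · intro J _ hJ
          apply Finset.sum_eq_zero
          intro j _
          exact sum_Pj_zero hl h0 hd hJ j
        · intro h
          exact absurd (Finset.mem_univ _) h
    _ = ∑ x, ∑ j, (if Pj l l0 x univ j then (1 : ZMod 2) else 0) := Finset.sum_comm
    _ = _ := by
        apply Finset.sum_congr rfl
        intro x _
        by_cases hx : Adm l l0 x ∧ ∃ j, ∑ w, l w (x w) = l0 j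
        · rw [if_pos hx]
          obtain ⟨h1, j, hj⟩ := hx
          rw [Finset.sum_eq_single j]
          · exact if_pos ⟨h1, hj⟩
          · intro j' _ hne
            rw [if_neg]
            rintro ⟨_, h2⟩
            exact hne (unique_j h0 hd h1 (h2 ▸ mem_Sp_sum l x univ) (hj ▸ mem_Sp_sum l x univ))
          · intro h
            exact absurd (Finset.mem_univ _) h
        · rw [if_neg hx]
          apply Finset.sum_eq_zero
          intro j _
          rw [if_neg]
          rintro ⟨h1, h2⟩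
          exact hx ⟨h1, j, h2⟩

/-- If the number of bases is not divisible by `4`, there is a spanning circuit. -/
theorem exists_of_not_dvd {l : ι → Fin 3 → V} (hl : ∀ w, l w 0 + l w 1 + l w 2 = 0)
    {l0 : Fin 3 → V} (h0 : l0 0 + l0 1 + l0 2 = 0)
    (hd : Module.finrank (ZMod 2) V = Fintype.card ι + 1)
    (h4 : ¬ 4 ∣ Nat.card {q : (ι → Fin 3) × Fin 3 // LinearIndependent (ZMod 2) (fam l l0 q.1 q.2)}) :
    ∃ x : ι → Fin 3, Adm l l0 x ∧ ∃ j, ∑ w, l w (x w) = l0 j := by
  by_contra h
  push Not at h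
  apply h4
  rw [card_fam l h0 hd]
  have h1 := lines hl h0 hd
  have h2 : IsEmpty {x : ι → Fin 3 // Adm l l0 x ∧ ∃ j, ∑ w, l w (x w) = l0 j} := by
    constructor
    rintro ⟨x, hx, j, hj⟩
    exact h x hx j hj
  rw [@Nat.card_of_isEmpty _ h2, Nat.cast_zero, ZMod.natCast_eq_zero_iff] at h1
  exact Nat.mul_dvd_mul_left 2 h1

end Pool.Agent.Gm
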