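import Pool.Agent.Lib.MP_fc2a59_co.Gm.Crit

set_option autoImplicit false

/-!
The criterion for cubic graphs.
-/

namespace Pool.Agent.Gm

open Finset

variable {V : Type} [Fintype V] [DecidableEq V] (G : SimpleGraph V) [DecidableRel G.Adj]

/-- The number of choices of one edge at every vertex of `U` such that the other edges form a tree. -/
noncomputable def TU {V : Type} (G : SimpleGraph V) (U : Finset V) : ℕ :=
  Nat.card {x : U → V // (∀ w, G.Adj w.1 (x w)) ∧
    (G.deleteEdges (Set.range fun w : U => s(w.1, x w))).IsTree}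

lemma two_edges (h3 : ∀ v, G.degree v = 3) : 2 * Nat.card G.edgeSet = 3 * Fintype.card V := by
  classical
  have h := G.sum_degrees_eq_twice_card_edges
  rw [Finset.sum_congr rfl (fun v _ => h3 v), Finset.sum_const, Finset.card_univ, smul_eq_mul] at h
  rw [Nat.card_eq_fintype_card, ← SimpleGraph.edgeFinset_card]
  omega

variable {G}

/-- the edge with the number given by `x`, `j` -/
def fe {nb : V → Fin 3 → V} (hn : ∀ w u, G.Adj w u ↔ ∃ k, nb w k = u) {U : Finset V} (v0 : U)
    (x : {w : U // w ≠ v0} → Fin 3) (j : Fin 3) : Option {w : U // w ≠ v0} → G.edgeSet :=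
  fun o => o.elim (eg G hn v0.1 j) (fun w => eg G hn w.1.1 (x w))

omit [Fintype V] [DecidableRel G.Adj] in
lemma range_fe {nb : V → Fin 3 → V} (hn : ∀ w u, G.Adj w u ↔ ∃ k, nb w k = u) {U : Finset V}
    (v0 : U) (x : {w : U // w ≠ v0} → Fin 3) (j : Fin 3) {y : U → V}
    (hy : ∀ w, y w = nb w.1 (if h : w = v0 then j else x ⟨w, h⟩)) :
    (Set.range fun w : U => s(w.1, y w)) = Set.range fun o => (fe hn v0 x j o).1 := by
  ext e
  constructor
  · rintro ⟨w, rfl⟩
    dsimp only
    rw [hy]
    by_cases h : w = v0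
    · subst h
      refine ⟨none, ?_⟩
      rw [dif_pos rfl]
      rfl
    · refine ⟨some ⟨w, h⟩, ?_⟩
      rw [dif_neg h]
      rfl
  · rintro ⟨o, rfl⟩
    cases o with
    | none =>
      refine ⟨v0, ?_⟩
      dsimp only
      rw [hy, dif_pos rfl]
      rfl
    | some i =>
      refine ⟨i.1, ?_⟩
      dsimp only
      rw [hy, dif_neg i.2]
      rfl

lemma card_TU (hG : G.Connected) {nb : V → Fin 3 → V}
    (hn : ∀ w u, G.Adj w u ↔ ∃ k, nb w k = u) (hi : ∀ w, Function.Injective (nb w))
    {U : Finset V} (hU : U.card + Fintype.card V = Nat.card G.edgeSet + 1) (v0 : U) :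
    TU G U = Nat.card {q : ({w : U // w ≠ v0} → Fin 3) × Fin 3 //
      LinearIndependent (ZMod 2) (fun o => ve G (fe hn v0 q.1 q.2 o))} := by
  have hc : Fintype.card (Option {w : U // w ≠ v0}) + Fintype.card V = Nat.card G.edgeSet + 1 := by
    rw [Fintype.card_congr (Equiv.optionSubtypeNe v0), Fintype.card_coe, hU]
  symm
  apply Nat.card_eq_of_bijective (fun q => ⟨fun w => nb w.1 (if h : w = v0 then q.1.2 else q.1.1 ⟨w, h⟩),
    fun w => (hn _ _).2 ⟨_, rfl⟩, by
      rw [range_fe hn v0 q.1.1 q.1.2 (fun w => rfl)]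
      exact (li_iff G hG _ hc).1 q.2⟩)
  constructor
  · rintro ⟨⟨x, j⟩, hq⟩ ⟨⟨x', j'⟩, hq'⟩ h
    have h1 : ∀ w : U, nb w.1 (if h : w = v0 then j else x ⟨w, h⟩) =
        nb w.1 (if h : w = v0 then j' else x' ⟨w, h⟩) := fun w =>
      congrFun (congrArg Subtype.val h) w
    have e1 : j = j' := by
      have := hi _ (h1 v0)
      rwa [dif_pos rfl, dif_pos rfl] at this
    have e2 : x = x' := by
      funext w
      have := hi _ (h1 w.1)
      rwa [dif_neg w.2, dif_neg w.2] at this
    subst e1 e2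
    rfl
  · rintro ⟨y, hy1, hy2⟩
    have h1 : ∀ w : U, ∃ k, nb w.1 k = y w := fun w => (hn _ _).1 (hy1 w)
    choose k hk using h1
    have h2 : ∀ w, y w = nb w.1 (if h : w = v0 then k v0 else (fun i : {w : U // w ≠ v0} => k i.1) ⟨w, h⟩) := by
      intro w
      rw [← hk w]
      by_cases h : w = v0
      · rw [dif_pos h, h]
      · rw [dif_neg h]
    refine ⟨⟨(fun i => k i.1, k v0), ?_⟩, ?_⟩
    · rw [li_iff G hG _ hc, ← range_fe hn v0 _ _ h2]
      exact hy2
    · apply Subtype.ext
      funext w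
      exact (h2 w).symm

/-- The criterion. -/
theorem crit (h3 : ∀ v, G.degree v = 3) {U : Finset V} (hU : 2 * U.card = Fintype.card V + 2)
    (h4 : ¬ 4 ∣ TU G U) : ∃ χ : V → Bool, ∀ b, (G.induce {v | χ v = b}).IsTree := by
  classical
  have hG : G.Connected := by
    have h1 : TU G U ≠ 0 := fun h => h4 (h ▸ dvd_zero 4)
    obtain ⟨x⟩ : Nonempty {x : U → V // (∀ w, G.Adj w.1 (x w)) ∧
        (G.deleteEdges (Set.range fun w : U => s(w.1, x w))).IsTree} := by
      by_contra h
      rw [not_nonempty_iff] at h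
      exact h1 Nat.card_of_isEmpty
    exact x.2.2.connected.mono (SimpleGraph.deleteEdges_le _)
  obtain ⟨nb, hi, hn⟩ := exists_nb G h3
  have hE := two_edges G h3
  have hUc : U.card + Fintype.card V = Nat.card G.edgeSet + 1 := by omega
  obtain ⟨v, hv⟩ : U.Nonempty := by
    rw [← Finset.card_pos]
    omega
  let v0 : U := ⟨v, hv⟩
  rw [card_TU hG hn hi hUc v0] at h4
  set ι := {w : U // w ≠ v0} with hι
  let l : ι → Fin 3 → X G := fun w k => ve G (eg G hn w.1.1 k)
  let l0 : Fin 3 → X G := fun k => ve G (eg G hn v k)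
  have hl : ∀ w, l w 0 + l w 1 + l w 2 = 0 := fun w => star_zero G hn hi w.1.1
  have hl0 : l0 0 + l0 1 + l0 2 = 0 := star_zero G hn hi v
  have hfam : ∀ x j, (fun o => ve G (fe hn v0 x j o)) = fam l l0 x j := by
    intro x j
    funext o
    cases o <;> rfl
  have hcO : Fintype.card (Option ι) = U.card := by
    rw [Fintype.card_congr (Equiv.optionSubtypeNe v0), Fintype.card_coe]
  have hd : Module.finrank (ZMod 2) (X G) = Fintype.card ι + 1 := by
    have h1 := finrank_X G hG
    rw [Fintype.card_option] at hcO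
    omega
  simp_rw [hfam] at h4
  obtain ⟨x, hx, j, hj⟩ := exists_of_not_dvd hl hl0 hd h4
  have hjS : l0 j ∈ Sp l x := hj ▸ mem_Sp_sum l x univ
  have hn1 : l0 (j + 1) ∉ Sp l x := fun h => by
    have := unique_j hl0 hd hx hjS h
    revert this
    clear * -
    revert j
    decide
  have hn2 : l0 (j + 2) ∉ Sp l x := fun h => by
    have := unique_j hl0 hd hx hjS h
    revert this
    clear * -
    revert j
    decide
  refine partition_of_circuit G hG (fun w : ι => eg G hn w.1.1 (x w)) (eg G hn v (j + 1))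
    (eg G hn v (j + 2)) (by rw [hcO, hUc]) ?_ ?_ ?_ ?_
  · have h1 := (li_fam l l0 x (j + 1)).2 ⟨hx.1, hn1⟩
    rw [← hfam] at h1
    exact h1
  · intro h
    have h1 : nb v (j + 2) = nb v (j + 1) := by
      have h2 : s(v, nb v (j + 2)) = s(v, nb v (j + 1)) := congrArg Subtype.val h
      rw [Sym2.eq_iff] at h2
      rcases h2 with h2 | h2
      · exact h2.2
      · exact h2.2.trans h2.1
    have h2 := hi v h1
    revert h2
    clear * -
    revert j
    decide
  · intro w h
    apply hn2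
    have h1 : l0 (j + 2) = l w (x w) := congrArg (ve G) h
    rw [h1]
    exact Submodule.subset_span ⟨w, rfl⟩
  · have h1 : l0 j + l0 (j + 1) + l0 (j + 2) = 0 := by
      fin_cases j
      · exact hl0
      · show l0 1 + l0 2 + l0 0 = 0
        rw [← hl0]
        abel
      · show l0 2 + l0 0 + l0 1 = 0
        rw [← hl0]
        abel
    rw [← h1, ← hj]

/-- The criterion, with the conclusion of the problem. -/
theorem crit_trees (h3 : ∀ v, G.degree v = 3) (hV : 2 < Fintype.card V) {U : Finset V}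
    (hU : 2 * U.card = Fintype.card V + 2) (h4 : ¬ 4 ∣ TU G U) :
    ∃ T₁ T₂ : SimpleGraph V,
      T₁ ⊔ T₂ = G ∧ Disjoint T₁ T₂ ∧
      T₁.IsAcyclic ∧ T₂.IsAcyclic ∧
      (∀ u v, u ∈ T₁.support → v ∈ T₁.support → T₁.Reachable u v) ∧
      (∀ u v, u ∈ T₂.support → v ∈ T₂.support → T₂.Reachable u v) := by
  obtain ⟨χ, hχ⟩ := crit h3 hU h4
  exact Pool.Agent.JaegerFinal.split_of_trees G h3 hV χ hχ

end Pool.Agent.Gm
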